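import Mathlib

namespace Pool.Agent.Results.MP_c72560_an.No

open Set Metric MeasureTheory Filter Topology
open scoped ENNReal NNReal Pointwise

/-- least number of sets of diameter at most `r` needed to cover `A` -/
noncomputable def covN {X : Type} [MetricSpace X] (r : ℝ) (A : Set X) : ℕ∞ :=
  ⨅ (C : Set (Set X)) (_ : ∀ U ∈ C, ediam U ≤ ENNReal.ofReal r) (_ : A ⊆ ⋃₀ C), C.encard

/-- Assouad dimension -/
noncomputable def dimA {X : Type} [MetricSpace X] (F : Set X) : ℝ≥0∞ :=
  ⨅ (s : ℝ≥0) (_ : ∃ C : ℝ, 0 < C ∧ ∀ R r : ℝ, 0 < r → r < R → ∀ x ∈ F,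
    (covN r (ball x R ∩ F) : ℝ≥0∞) ≤ ENNReal.ofReal (C * (R / r) ^ (s : ℝ))), (s : ℝ≥0∞)

/-- Euclidean three-space -/
abbrev E := EuclideanSpace ℝ (Fin 3)

/-- the unit cube -/
def cube : Set E := {x | ∀ i, 0 ≤ x i ∧ x i ≤ 1}

/-- contraction ratios -/
noncomputable def c : Fin 3 → ℝ := ![1 / 9, 1 / 16, 1 / 9]

/-- translations -/
noncomputable def t : Fin 3 → ℝ := ![0, 0, 8 / 9]

/-- orbit of one -/
inductive Orb : ℝ → Prop
  | one : Orb 1
  | step (i : Fin 3) (x : ℝ) : Orb x → Orb (c i * x + t i)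

/-- the attractor on the line -/
def F0 : Set ℝ := closure {x | Orb x}

theorem c_mem (i : Fin 3) : 0 < c i ∧ c i ≤ 1 / 9 ∧ 0 ≤ t i ∧ c i + t i ≤ 1 := by
  fin_cases i <;> simp [c, t] <;> norm_num

theorem F0_sub : F0 ⊆ Icc 0 1 := by
  refine closure_minimal (fun x hx => ?_) isClosed_Icc
  induction hx with
  | one => simp
  | step i x _ ih =>
    obtain ⟨h1, -, h3, h4⟩ := c_mem i
    exact ⟨by nlinarith [ih.1], by nlinarith [ih.2]⟩

theorem F0_compact : IsCompact F0 := isCompact_Icc.of_isClosed_subset isClosed_closure F0_sub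

theorem F0_eq : F0 = ⋃ i, (fun x => c i * x + t i) '' F0 := by
  apply Subset.antisymm
  · refine closure_minimal (fun x hx => ?_) (isClosed_iUnion_of_finite fun i =>
      (F0_compact.image (by fun_prop)).isClosed)
    cases hx with
    | one => exact mem_iUnion.2 ⟨2, 1, subset_closure Orb.one, by simp [c, t]; norm_num⟩
    | step i x h => exact mem_iUnion.2 ⟨i, x, subset_closure h, rfl⟩
  · refine iUnion_subset fun i => (image_closure_subset_closure_image (by fun_prop)).trans
      (closure_mono ?_)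
    rintro _ ⟨x, hx, rfl⟩
    exact Orb.step i x hx

theorem orb_pow (a b : ℕ) : Orb ((1 / 9) ^ a * (1 / 16) ^ b) := by
  induction a with
  | zero =>
    induction b with
    | zero => simpa using Orb.one
    | succ b ih => convert Orb.step 1 _ ih using 1; simp [c, t]; ring
  | succ a ih => convert Orb.step 0 _ ih using 1; simp [c, t]; ring

theorem cover (n : ℕ) : ∃ C : Finset (Set ℝ), C.card ≤ 3 ^ n ∧
    (∀ U ∈ C, ∀ x ∈ U, ∀ y ∈ U, |x - y| ≤ (1 / 9) ^ n) ∧ ∀ x ∈ F0, ∃ U ∈ C, x ∈ U := by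
  classical
  induction n with
  | zero =>
    refine ⟨{F0}, by simp, fun U hU x hx y hy => ?_, fun x hx => ⟨F0, by simp, hx⟩⟩
    rw [Finset.mem_singleton.1 hU] at hx hy
    have h1 := F0_sub hx
    have h2 := F0_sub hy
    rw [pow_zero, abs_le]
    constructor <;> linarith [h1.1, h1.2, h2.1, h2.2]
  | succ n ih =>
    obtain ⟨C, h1, h2, h3⟩ := ih
    refine ⟨(Finset.univ ×ˢ C).image fun p : Fin 3 × Set ℝ => (fun x => c p.1 * x + t p.1) '' p.2,
      Finset.card_image_le.trans ?_, fun U hU => ?_, fun x hx => ?_⟩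
    · rw [Finset.card_product, Finset.card_univ, Fintype.card_fin, pow_succ]
      omega
    · obtain ⟨⟨i, V⟩, hV, rfl⟩ := Finset.mem_image.1 hU
      rintro _ ⟨x, hx, rfl⟩ _ ⟨y, hy, rfl⟩
      have h4 := h2 V (Finset.mem_product.1 hV).2 x hx y hy
      obtain ⟨h5, h6, -⟩ := c_mem i
      simp only
      rw [add_sub_add_right_eq_sub, ← mul_sub, abs_mul, abs_of_pos h5, pow_succ']
      gcongr
    · rw [F0_eq] at hx
      obtain ⟨i, y, hy, rfl⟩ := mem_iUnion.1 hx
      obtain ⟨V, hV, hyV⟩ := h3 y hy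
      exact ⟨_, Finset.mem_image.2 ⟨(i, V), by simp [hV], rfl⟩, y, hyV, rfl⟩

theorem dimH_F0 : dimH F0 ≤ 1 / 2 := by
  choose C h1 h2 h3 using cover
  have hd : ∀ n, ∀ U : C n, ediam (U : Set ℝ) ≤ ENNReal.ofReal ((1 / 9) ^ n) := fun n U =>
    ediam_le_of_forall_dist_le fun x hx y hy => h2 n U U.2 x hx y hy
  have key := Measure.hausdorffMeasure_le_liminf_sum (1 / 2) F0 (l := atTop)
    (fun n : ℕ => ENNReal.ofReal ((1 / 9) ^ n))
    (by simpa using ENNReal.tendsto_ofReal (tendsto_pow_atTop_nhds_zero_of_lt_one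
      (r := (1 / 9 : ℝ)) (by norm_num) (by norm_num)))
    (fun n (U : C n) => (U : Set ℝ)) (Eventually.of_forall hd)
    (Eventually.of_forall fun n x hx => by
      obtain ⟨U, hU, hx⟩ := h3 n x hx
      exact mem_iUnion.2 ⟨⟨U, hU⟩, hx⟩)
  have h4 : μH[1 / 2] F0 ≤ 1 := by
    refine key.trans (liminf_le_of_frequently_le' (Frequently.of_forall fun n => ?_))
    calc _ ≤ ∑ _U : C n, ENNReal.ofReal ((1 / 3) ^ n) := by
          refine Finset.sum_le_sum fun U _ => (ENNReal.rpow_le_rpow (hd n U) (by norm_num)).trans ?_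
          rw [ENNReal.ofReal_rpow_of_nonneg (by positivity) (by norm_num), ← Real.sqrt_eq_rpow,
            show ((1 : ℝ) / 9) ^ n = ((1 / 3) ^ n) ^ 2 by rw [← pow_mul, mul_comm, pow_mul]; norm_num,
            Real.sqrt_sq (by positivity)]
      _ ≤ 1 := by
          rw [Finset.sum_const, Finset.card_univ, Fintype.card_coe, nsmul_eq_mul,
            ← ENNReal.ofReal_natCast, ← ENNReal.ofReal_mul (by positivity), ← ENNReal.ofReal_one]
          refine ENNReal.ofReal_le_ofReal ?_
          have : ((C n).card : ℝ) ≤ 3 ^ n := by exact_mod_cast h1 n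
          calc _ ≤ (3 : ℝ) ^ n * (1 / 3) ^ n := by gcongr
            _ = 1 := by rw [← mul_pow]; norm_num
  have := dimH_le_of_hausdorffMeasure_ne_top (d := 1 / 2) (s := F0)
    (by simpa using (h4.trans_lt ENNReal.one_lt_top).ne)
  simpa using this

theorem irr : Irrational (Real.log 9 / Real.log 16) := by
  rintro ⟨r, hr⟩
  have h9 : 0 < Real.log 9 := Real.log_pos (by norm_num)
  have h16 : 0 < Real.log 16 := Real.log_pos (by norm_num)
  have hr0 : 0 < r := by
    have : (0 : ℝ) < r := by rw [hr]; positivity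
    exact_mod_cast this
  obtain ⟨n, hn⟩ := Int.eq_ofNat_of_zero_le (Rat.num_pos.2 hr0).le
  have hn0 : n ≠ 0 := by have := Rat.num_pos.2 hr0; omega
  rw [Rat.cast_def, hn, div_eq_div_iff (by exact_mod_cast r.den_nz) h16.ne', Int.cast_natCast,
    mul_comm (Real.log 9), ← Real.log_pow, ← Real.log_pow] at hr
  have h1 := Real.log_injOn_pos (mem_Ioi.2 (by positivity)) (mem_Ioi.2 (by positivity)) hr
  have h2 : 16 ^ n = 9 ^ r.den := by exact_mod_cast h1
  have h3 : Odd (9 ^ r.den) := Odd.pow (by decide)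
  rw [← h2, ← Nat.not_even_iff_odd, Nat.even_pow] at h3
  exact h3 ⟨by decide, hn0⟩

theorem near (m : ℕ) : ∃ a b : ℤ, |(9 : ℝ) ^ a * 16 ^ b - (m + 1)| < 1 / 5 := by
  have hd := dense_addSubgroupClosure_pair_iff.2 irr
  have ho : IsOpen {z : ℝ | |Real.exp z - (m + 1)| < 1 / 5} :=
    isOpen_lt (by fun_prop) continuous_const
  obtain ⟨z, hz1, hz2⟩ := hd.exists_mem_open ho ⟨Real.log (m + 1), by
    simp only [mem_ofPred_eq]; rw [Real.exp_log (by positivity)]; norm_num⟩
  obtain ⟨a, b, rfl⟩ := AddSubgroup.mem_closure_pair.1 hz1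
  refine ⟨a, b, ?_⟩
  have e : ∀ (k : ℤ) (x : ℝ), 0 < x → Real.exp (k • Real.log x) = x ^ k := fun k x hx => by
    rw [zsmul_eq_mul, ← Real.log_zpow, Real.exp_log (by positivity)]
  simp only [mem_ofPred_eq] at hz2
  rwa [Real.exp_add, e a 9 (by norm_num), e b 16 (by norm_num)] at hz2

theorem points (M : ℕ) : ∃ l : ℝ, 0 < l ∧ ∃ y : ℕ → ℝ,
    ∀ m < M, y m ∈ F0 ∧ |y m - l * (m + 1)| < l / 5 := by
  choose a b h using near
  obtain ⟨A, hA⟩ := ((Finset.range M).image fun m => max (a m) (b m)).exists_le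
  refine ⟨9 ^ (-A) * 16 ^ (-A), by positivity,
    fun m => 9 ^ (-A) * 16 ^ (-A) * (9 ^ a m * 16 ^ b m), fun m hm => ⟨subset_closure ?_, ?_⟩⟩
  · have h1 := hA _ (Finset.mem_image_of_mem _ (Finset.mem_range.2 hm))
    obtain ⟨i, hi⟩ := Int.eq_ofNat_of_zero_le (show 0 ≤ A - a m by omega)
    obtain ⟨j, hj⟩ := Int.eq_ofNat_of_zero_le (show 0 ≤ A - b m by omega)
    convert orb_pow i j using 1
    simp only [mem_ofPred_eq]
    rw [mul_mul_mul_comm, ← zpow_add₀ (by norm_num), ← zpow_add₀ (by norm_num),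
      show -A + a m = -i by omega, show -A + b m = -j by omega]
    simp
  · rw [← mul_sub, abs_mul, abs_of_pos (by positivity), div_eq_mul_one_div _ (5 : ℝ)]
    gcongr
    exact h m

theorem dimA_line {v : E} (hv : v ≠ 0) : dimA ((fun s : ℝ => s • v) '' F0) = 1 := by
  have hn : 0 < ‖v‖ := norm_pos_iff.2 hv
  have hd : ∀ a b : ℝ, dist (a • v) (b • v) = |a - b| * ‖v‖ := fun a b => by
    rw [dist_eq_norm, ← sub_smul, norm_smul, Real.norm_eq_abs]
  apply le_antisymm
  · refine iInf₂_le_of_le 1 ⟨3, by norm_num, ?_⟩ le_rfl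
    rintro R r hr hR _ ⟨x, -, rfl⟩
    have h1 : covN r (ball (x • v) R ∩ (fun s : ℝ => s • v) '' F0) ≤ (⌈2 * R / r⌉₊ : ℕ) := by
      refine iInf_le_of_le ((fun k : ℕ => (fun s : ℝ => s • v) ''
        Icc (x + (k * r - R) / ‖v‖) (x + ((k + 1) * r - R) / ‖v‖)) '' (Finset.range ⌈2 * R / r⌉₊))
        (iInf₂_le_of_le ?_ ?_ ((encard_image_le _ _).trans (by
          rw [encard_coe_eq_coe_finsetCard, Finset.card_range])))
      · rintro _ ⟨k, -, rfl⟩
        refine ediam_le_of_forall_dist_le ?_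
        rintro _ ⟨a, ha, rfl⟩ _ ⟨b, hb, rfl⟩
        rw [hd, ← le_div_iff₀ hn, abs_le]
        have e : ((k + 1) * r - R) / ‖v‖ = (k * r - R) / ‖v‖ + r / ‖v‖ := by ring
        constructor <;> linarith [ha.1, ha.2, hb.1, hb.2]
      · rintro _ ⟨ha, a, -, rfl⟩
        rw [mem_ball, hd, ← abs_of_pos hn, ← abs_mul, abs_lt] at ha
        have h0 : 0 ≤ ((a - x) * ‖v‖ + R) / r := div_nonneg (by linarith) hr.le
        refine ⟨_, ⟨⌊((a - x) * ‖v‖ + R) / r⌋₊, ?_, rfl⟩, a, ⟨?_, ?_⟩, rfl⟩
        · rw [Finset.coe_range, mem_Iio, Nat.floor_lt h0]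
          refine lt_of_lt_of_le ?_ (Nat.le_ceil _)
          gcongr
          linarith
        · have := Nat.floor_le h0
          rw [le_div_iff₀ hr] at this
          rw [← le_sub_iff_add_le', div_le_iff₀ hn]
          linarith
        · have := Nat.lt_floor_add_one (((a - x) * ‖v‖ + R) / r)
          rw [div_lt_iff₀ hr] at this
          rw [← sub_le_iff_le_add', le_div_iff₀ hn]
          linarith
    refine (ENat.toENNReal_le.2 h1).trans ?_
    rw [ENat.toENNReal_coe, ← ENNReal.ofReal_natCast]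
    refine ENNReal.ofReal_le_ofReal ?_
    have h2 := Nat.ceil_lt_add_one (show 0 ≤ 2 * R / r by have := hr.trans hR; positivity)
    have h3 : 1 < R / r := (one_lt_div hr).2 hR
    rw [NNReal.coe_one, Real.rpow_one]
    rw [mul_div_assoc] at h2 ⊢
    linarith
  · refine le_iInf₂ fun s hs => ?_
    obtain ⟨C, hC, hs⟩ := hs
    by_contra h
    have hs1 : (s : ℝ) < 1 := by
      have : s < 1 := by exact_mod_cast not_le.1 h
      exact_mod_cast this
    have key : ∀ M : ℕ, 0 < M → (M : ℝ) ≤ C * (2 * M) ^ (s : ℝ) := by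
      intro M hM
      obtain ⟨l, hl, y, hy⟩ := points M
      have hM' : (1 : ℝ) ≤ M := by exact_mod_cast hM
      have hln : 0 < l * ‖v‖ := by positivity
      have h1 := hs (l * ‖v‖ * M) (l * ‖v‖ / 2) (by positivity) (by nlinarith) _
        ⟨y 0, (hy 0 hM).1, rfl⟩
      rw [show l * ‖v‖ * M / (l * ‖v‖ / 2) = 2 * M by field_simp] at h1
      have h2 : (M : ℕ∞) ≤ covN (l * ‖v‖ / 2) (ball (y 0 • v) (l * ‖v‖ * M) ∩
          (fun s : ℝ => s • v) '' F0) := by
        refine le_iInf fun D => le_iInf₂ fun hD1 hD2 => ?_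
        have h3 : ∀ m, m < M → ∃ U ∈ D, y m • v ∈ U := fun m hm => hD2 ⟨by
          rw [mem_ball, hd, mul_right_comm]
          gcongr
          have h4 := abs_lt.1 (hy m hm).2
          have h5 := abs_lt.1 (hy 0 hM).2
          have h6 : (m : ℝ) + 1 ≤ M := by exact_mod_cast hm
          have h7 : (0 : ℝ) ≤ m := by positivity
          rw [abs_lt]
          constructor <;> push_cast at h5 <;> nlinarith, y m, (hy m hm).1, rfl⟩
        choose! U hU1 hU2 using h3
        have h4 := encard_le_encard_of_injOn (s := (Finset.range M : Set ℕ)) (t := D) (f := U)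
          (fun m hm => hU1 m (by simpa using hm)) (by
            intro m hm k hk hmk
            have hm' : m < M := by simpa using hm
            have hk' : k < M := by simpa using hk
            have h5 := (edist_le_ediam_of_mem (hU2 m hm') (hmk ▸ hU2 k hk')).trans (hD1 _ (hU1 m hm'))
            rw [edist_dist, ENNReal.ofReal_le_ofReal_iff (by positivity), hd,
              mul_div_right_comm] at h5
            have h6 := abs_le.1 (le_of_mul_le_mul_right h5 hn)
            have h7 := abs_lt.1 (hy m hm').2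
            have h8 := abs_lt.1 (hy k hk').2
            rcases lt_trichotomy m k with h9 | h9 | h9
            · have : (m : ℝ) + 1 ≤ k := by exact_mod_cast h9
              nlinarith
            · exact h9
            · have : (k : ℝ) + 1 ≤ m := by exact_mod_cast h9
              nlinarith)
        rwa [encard_coe_eq_coe_finsetCard, Finset.card_range] at h4
      have h3 := (ENat.toENNReal_le.2 h2).trans h1
      rwa [ENat.toENNReal_coe, ← ENNReal.ofReal_natCast,
        ENNReal.ofReal_le_ofReal_iff (by positivity)] at h3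
    have h5 : Tendsto (fun M : ℕ => (M : ℝ) ^ (1 - (s : ℝ))) atTop atTop :=
      (tendsto_rpow_atTop (by linarith)).comp tendsto_natCast_atTop_atTop
    obtain ⟨M, hM1, hM2⟩ := ((h5.eventually_gt_atTop (C * 2 ^ (s : ℝ))).and
      (eventually_gt_atTop 0)).exists
    have hM : (0 : ℝ) < M := by exact_mod_cast hM2
    have h6 := key M hM2
    rw [Real.mul_rpow (by norm_num) hM.le, ← mul_assoc] at h6
    rw [Real.rpow_sub hM, Real.rpow_one, lt_div_iff₀ (by positivity)] at hM1
    linarith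

/-- the similarity with ratio `c`, trivial rotation and translation `t` -/
noncomputable def sim (c : ℝ) (t : E) (x : E) : E := c • x + t

/-- `F` is the attractor of three contracting similarities of the cube -/
def SelfSim (F : Set E) : Prop :=
  ∃ (c : Fin 3 → ℝ) (t : Fin 3 → E), (∀ i, 0 < c i ∧ c i < 1) ∧
    (∀ i, MapsTo (sim (c i) (t i)) cube cube) ∧ F.Nonempty ∧ IsCompact F ∧ F ⊆ cube ∧
    F = ⋃ i, sim (c i) (t i) '' F

/-- orthogonal projection onto the plane orthogonal to `n` -/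
noncomputable def pr (n : E) (x : E) : E := (ℝ ∙ n)ᗮ.starProjection x

/-- the spherical measure -/
noncomputable def sph : Measure (sphere (0 : E) 1) := (volume : Measure E).toSphere

theorem result : ∃ F : Set E, SelfSim F ∧ sph ≠ 0 ∧
    ∀ᵐ n : sphere (0 : E) 1 ∂sph, dimA (pr n.1 '' F) = 1 ∧ dimH (pr n.1 '' F) ≤ 1 / 2 := by
  unfold SelfSim sph pr sim
  set e : E := EuclideanSpace.single 0 1 with he
  refine ⟨(fun s : ℝ => s • e) '' F0, ⟨c, fun i => t i • e, fun i => ⟨(c_mem i).1, by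
    linarith [(c_mem i).2.1]⟩, fun i x hx j => ?_, ⟨_, 1, subset_closure Orb.one, rfl⟩,
    F0_compact.image (by fun_prop), ?_, ?_⟩, by simp, ?_⟩
  · obtain ⟨h1, -, h3, h4⟩ := c_mem i
    obtain ⟨h5, h6⟩ := hx j
    by_cases hj : j = 0 <;> simp [he, hj] at h5 h6 ⊢ <;> constructor <;> nlinarith
  · rintro _ ⟨s, hs, rfl⟩ j
    have := F0_sub hs
    by_cases hj : j = 0 <;> simp [he, hj, this.1, this.2]
  · conv_lhs => rw [F0_eq]
    simp only [image_iUnion, image_image, add_smul, mul_smul]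
  · have h0 : (volume : Measure E).toSphere
        (Subtype.val ⁻¹' ((ℝ ∙ e : Submodule ℝ E) : Set E) : Set (sphere (0 : E) 1)) = 0 := by
      rw [Measure.toSphere_apply' _ ((ℝ ∙ e).closed_of_finiteDimensional.measurableSet.preimage
        measurable_subtype_coe), mul_eq_zero]
      refine Or.inr (measure_mono_null (t := (ℝ ∙ e : Submodule ℝ E)) ?_
        (Measure.addHaar_submodule _ _ fun h => ?_))
      · rintro _ ⟨a, -, _, ⟨n, hn, rfl⟩, rfl⟩
        exact Submodule.smul_mem _ _ hn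
      · have h1 : (EuclideanSpace.single 1 1 : E) ∈ ℝ ∙ e := h ▸ Submodule.mem_top
        obtain ⟨a, ha⟩ := Submodule.mem_span_singleton.1 h1
        simpa [he] using congrArg (fun x : E => x 1) ha
    filter_upwards [measure_eq_zero_iff_ae_notMem.1 h0] with n hn
    have hv : (ℝ ∙ (n : E))ᗮ.starProjection e ≠ 0 := by
      intro h
      rw [Submodule.starProjection_apply_eq_zero_iff, Submodule.orthogonal_orthogonal] at h
      obtain ⟨a, ha⟩ := Submodule.mem_span_singleton.1 h
      have ha0 : a ≠ 0 := by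
        rintro rfl
        simpa [he] using congrArg (fun x : E => x 0) ha
      exact hn (Submodule.mem_span_singleton.2 ⟨a⁻¹, by rw [← ha, inv_smul_smul₀ ha0]⟩)
    rw [image_image]
    simp only [map_smul]
    refine ⟨dimA_line hv, le_trans ?_ dimH_F0⟩
    exact (ContinuousLinearMap.toSpanSingleton ℝ
      ((ℝ ∙ (n : E))ᗮ.starProjection e)).lipschitz.dimH_image_le F0

end Pool.Agent.Results.MP_c72560_an.No
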